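import Pool.Agent.helper45.TC.Spec

/-!
# Project TC (MP_405bd9_al): row CL0
-/

set_option autoImplicit false

open Polynomial Finset Pool.Agent.helper27.PC

namespace Pool.Agent.TC

theorem CL0 (hSUP : SUP_stmt) : CL0_stmt := by
  intro s a b hs hsa hb R l hl hy
  obtain ⟨hlR, hmR⟩ := mem_ad.1 hl
  obtain ⟨c₀, y⟩ := l
  have hup : (up b (c₀, y) : Lab) = (c₀, y + b) := rfl
  -- members of the moved state
  have hmem : ∀ x : Lab, x ∈ move b R (c₀, y) ↔ x = (c₀, y + b) ∨ (x ≠ (c₀, y) ∧ x ∈ R) := by
    intro x
    rw [mem_mv, hup]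
  have hlS : ((c₀, y) : Lab) ∉ move b R (c₀, y) := by
    rw [hmem]
    rintro (h | h)
    · have := congrArg Prod.snd h
      simp only at this
      omega
    · exact h.1 rfl
  have hmS : ((c₀, y + b) : Lab) ∈ move b R (c₀, y) := by
    rw [hmem]
    exact Or.inl rfl
  have hR : ∀ x : Lab, x ∈ R ↔ x = (c₀, y) ∨ (x ≠ (c₀, y + b) ∧ x ∈ move b R (c₀, y)) := by
    intro x
    rw [hmem]
    constructor
    · intro hx
      by_cases h : x = (c₀, y)
      · exact Or.inl h
      · refine Or.inr ⟨?_, Or.inr ⟨h, hx⟩⟩
        rintro rfl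
        exact hmR hx
    · rintro (rfl | ⟨h1, h2 | h2⟩)
      · exact hlR
      · exact absurd h2 h1
      · exact h2.2
  rcases hSUP s a b hs hsa _ hy with ⟨c, i, hi, hS⟩ | ⟨c, c', i, k, hi, hk, h1, h2, hS⟩
  · -- one moved bead
    obtain ⟨g, hg, hS⟩ : ∃ g, (g = a + b + i ∨ g = b + i) ∧ move b R (c₀, y) = D3 s a b c g := by
      rcases hS with h | h
      · exact ⟨_, Or.inl rfl, h⟩
      · exact ⟨_, Or.inr rfl, h⟩
    have hgn : g < s + a + b := by omega
    rw [hS] at hR hlS hmS
    rw [mem_D3] at hlS hmS
    push Not at hlS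
    have hl1 : ((c₀, y) : Lab) = (c, g) := by
      by_contra hne
      have h3 := hlS.2 hne
      rcases hmS with h | h
      · apply hne
        rw [Prod.mk.injEq] at h ⊢
        exact ⟨h.1, by omega⟩
      · have h4 := h.2
        simp only at h3 h4
        omega
    have hy' : y = g := congrArg Prod.snd hl1
    refine ⟨?_, i, hi, ?_⟩
    · ext x
      rw [hR x, mem_vac', mem_D3]
      constructor
      · rintro (h | ⟨h5, h | h⟩)
        · rw [h]
          show y < _
          omega
        · exfalso
          apply h5
          rw [h, Prod.mk.injEq]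
          exact ⟨(congrArg Prod.fst hl1).symm, by omega⟩
        · exact h.2
      · intro hx
        by_cases h : x = (c₀, y)
        · exact Or.inl h
        · refine Or.inr ⟨?_, Or.inr ⟨?_, hx⟩⟩
          · rintro rfl
            simp only at hx
            omega
          · rw [← hl1]
            exact h
    · show y = _ ∨ y = _
      omega
  · exfalso
    have hx : ∀ x : Lab, x ∈ move b R (c₀, y) ↔ x = (c', s + b + k + a) ∨ (x ≠ (c', s + b + k) ∧
        (x = (c, a + b + i + s) ∨ (x ≠ (c, a + b + i) ∧ x.2 < s + a + b))) := by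
      intro x
      rw [hS, mem_mv, mem_mv, mem_vac']
      rfl
    rw [hx] at hlS hmS
    have hl2 : ((c₀, y) : Lab) = (c', s + b + k) ∨ ((c₀, y) : Lab) = (c, a + b + i) ∨ s + a + b ≤ y := by
      by_contra hcon
      push Not at hcon
      obtain ⟨q1, q2, q3⟩ := hcon
      exact hlS (Or.inr ⟨q1, Or.inr ⟨q2, q3⟩⟩)
    rcases hmS with h | ⟨-, h | ⟨-, h⟩⟩
    · rw [Prod.mk.injEq] at h
      rcases hl2 with h3 | h3 | h3
      · have := congrArg Prod.snd h3
        simp only at this
        omega
      · have := congrArg Prod.snd h3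
        simp only at this
        omega
      · omega
    · rw [Prod.mk.injEq] at h
      rcases hl2 with h3 | h3 | h3
      · have := congrArg Prod.snd h3
        simp only at this
        omega
      · have := congrArg Prod.snd h3
        simp only at this
        omega
      · omega
    · simp only at h
      rcases hl2 with h3 | h3 | h3
      · have := congrArg Prod.snd h3
        simp only at this
        omega
      · have := congrArg Prod.snd h3
        simp only at this
        omega
      · omega

end Pool.Agent.TC
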